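import Pool.Agent.helper77.N3.Spec

/-! Row PA of project N3 (MP_7e34bc_co, Q2), statement by helper77. -/

set_option autoImplicit false

namespace Pool.Agent.helper77.N3

open Finset Pool.Agent.NK Pool.Agent.helper37.NF

theorem PA : PA_stmt := by
  intro t n ht hn hn4
  refine ⟨?_, ?_, ?_, ?_⟩
  · obtain ⟨z, rfl⟩ : ∃ z, t = 12 + z := ⟨t - 12, by ring⟩
    obtain ⟨y, rfl⟩ : ∃ y, n = 3 * (12 + z) + y := ⟨n - 3 * (12 + z), by ring⟩
    have hz : 0 ≤ z := by linarith
    have hy : 0 ≤ y := by linarith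
    clear ht hn hn4
    rw [← sub_nonneg]
    ring_nf
    positivity
  · obtain ⟨z, rfl⟩ : ∃ z, t = 12 + z := ⟨t - 12, by ring⟩
    obtain ⟨y, rfl⟩ : ∃ y, n = 3 * (12 + z) + y := ⟨n - 3 * (12 + z), by ring⟩
    have hz : 0 ≤ z := by linarith
    have hy : 0 ≤ y := by linarith
    clear ht hn hn4
    rw [← sub_nonneg]
    ring_nf
    positivity
  · obtain ⟨z, rfl⟩ : ∃ z, t = 12 + z := ⟨t - 12, by ring⟩
    obtain ⟨y, rfl⟩ : ∃ y, n = 3 * (12 + z) + y := ⟨n - 3 * (12 + z), by ring⟩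
    have hz : 0 ≤ z := by linarith
    have hy : 0 ≤ y := by linarith
    clear ht hn hn4
    rw [← sub_nonneg]
    ring_nf
    positivity
  · have h1 : 0 ≤ (n - 3 * t) * (6 * t - n) := mul_nonneg (by linarith) (by linarith)
    have h2 : 0 ≤ (n - t) * (n - 3) := mul_nonneg (by linarith) (by linarith)
    have h3 : 0 ≤ ((n - 3 * t) * (6 * t - n)) * ((n - t) * (n - 3)) := mul_nonneg h1 h2
    have h4 : 0 ≤ n * (2 * (n * (n - 3) - (n - t - 2))) := by
      have hn0 : 0 ≤ n := by linarith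
      have h5 : n ≤ n * (n - 3) := by nlinarith
      exact mul_nonneg hn0 (by linarith)
    have e : 9 * t * (n - t) * (n - 2 * t) * (n - 3) - n * (n - 1) * (n - 2) * (n - t - 2) =
        ((n - 3 * t) * (6 * t - n)) * ((n - t) * (n - 3)) +
          n * (2 * (n * (n - 3) - (n - t - 2))) := by ring
    rw [← sub_nonneg, e]
    exact add_nonneg h3 h4

end Pool.Agent.helper77.N3
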